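import Pool.Agent.T5h70.TT.Fin

/-!
# The two-type threshold competition model: the logarithmic factors can be removed

Configurations `ℤ² → {0,1,2}`, initially independent with `P(1) = p`, `P(2) = q`, `P(0) = 1 - p - q`; a site in state
0 gets state `i ∈ {1,2}` if `i` is the only state in `{1,2}` that at least two of its four neighbours have; all sites
update simultaneously, and states 1 and 2 remain.

Both statements of the question are true, along all sequences with `p, q → 0`:
(a) if `q ≪ p²` then the probability that the origin is eventually in state 1 tends to 1;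
(b) if `p^(1/2) ≪ q` then the probability that the origin is eventually in state 2 tends to 1.

Proof. Let `g` be about `4 log(1/p) / p`.

1. In the box of radius `L = exp(O(log²(1/p) / p))` the 2s are covered by rectangles with sides at most `20 g`
(Aizenman–Lebowitz; the probability of a larger rectangle is at most `L^3 (100 g q)^(10 g)`), so until the time `L` the 1s
near the origin dominate the bootstrap percolation in which the sites of these rectangles are closed.
2. A square of side `6 g` full of 1s (up to isolated 2s) grows to the neighbouring squares at distance `100 g`, unless there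
are two 2s close to each other or in two adjacent lines, a segment of length `g` without 1s, or a large loss at a corner.
The loss at a corner is an exploration process: a 2 at depth `y` below the present corner is harmful only if there is no 1
above it in its column (or the next one), so the expected loss per column is at most `2 q ∑ (y+1) (1-p)^y = 2 q / p²`. By
Markov's inequality all of this has probability close to one if `q / p²` is small; there is no logarithm.
3. So blocks are good with a probability close to one, independently at large distance. A multiscale argument connects the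
origin by good blocks to a place at distance at most `exp(O(log²(1/p) / p))` where `g` consecutive 1s are the seed of a full
square (FKG inequality).
-/

open MeasureTheory ProbabilityTheory Filter Topology

universe u

namespace Pool.Agent.Results.MP_daac75_pr.LogarithmicFactors

/-- The four nearest neighbours of a site. -/
def neighbours (x : ℤ × ℤ) : Finset (ℤ × ℤ) :=
  {(x.1 + 1, x.2), (x.1 - 1, x.2), (x.1, x.2 + 1), (x.1, x.2 - 1)}

/-- `N_i(x)`: the number of the nearest neighbours of `x` in state `i`. -/
def N (i : Fin 3) (ξ : ℤ × ℤ → Fin 3) (x : ℤ × ℤ) : ℕ :=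
  ((neighbours x).filter fun y => ξ y = i).card

/-- The configuration at the next time: the states 1 and 2 remain; a site in state 0 gets the state
`i ∈ {1,2}` if `N_i(x) ≥ 2` for exactly one `i ∈ {1,2}`, and remains 0 otherwise. -/
def update (ξ : ℤ × ℤ → Fin 3) (x : ℤ × ℤ) : Fin 3 :=
  if ξ x ≠ 0 then ξ x
  else if 2 ≤ N 1 ξ x ∧ ¬ 2 ≤ N 2 ξ x then 1
  else if 2 ≤ N 2 ξ x ∧ ¬ 2 ≤ N 1 ξ x then 2
  else 0

/-- The configuration `ξ_t` at time `t` if the initial configuration is `ξ`. -/
def config (ξ : ℤ × ℤ → Fin 3) (t : ℕ) : ℤ × ℤ → Fin 3 := update^[t] ξ

/-- The origin is eventually in state `i`. -/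
def OriginEventually (i : Fin 3) (ξ : ℤ × ℤ → Fin 3) : Prop := ∃ t : ℕ, config ξ t (0, 0) = i

/-- The initial configuration `ξ₀`: the states of the sites are independent, with `P(1) = p` and
`P(2) = q` (so `P(0) = 1 - p - q`). -/
structure Initial {Ω : Type u} [MeasurableSpace Ω] (P : Measure Ω) (ξ : ℤ × ℤ → Ω → Fin 3)
    (p q : ℝ) : Prop where
  measurable : ∀ x, Measurable (ξ x)
  independent : iIndepFun ξ P
  one : ∀ x, P.real {ω | ξ x ω = 1} = p
  two : ∀ x, P.real {ω | ξ x ω = 2} = q

/-- **Both parts of the question have the answer yes**: if `q ≪ p²` then the origin is eventually in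
state 1 with probability tending to 1; if `p^(1/2) ≪ q` then the origin is eventually in state 2 with
probability tending to 1. -/
theorem result (Ω : ℕ → Type u) [∀ n, MeasurableSpace (Ω n)] (P : ∀ n, Measure (Ω n))
    [∀ n, IsProbabilityMeasure (P n)] (ξ : ∀ n, ℤ × ℤ → Ω n → Fin 3) (p q : ℕ → ℝ)
    (hξ : ∀ n, Initial (P n) (ξ n) (p n) (q n)) (hp : Tendsto p atTop (𝓝 0))
    (hq : Tendsto q atTop (𝓝 0)) :
    ((∀ n, 0 < p n) → Tendsto (fun n => q n / p n ^ 2) atTop (𝓝 0) →
      Tendsto (fun n => (P n).real {ω | OriginEventually 1 fun x => ξ n x ω}) atTop (𝓝 1)) ∧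
    ((∀ n, 0 < q n) → Tendsto (fun n => √(p n) / q n) atTop (𝓝 0) →
      Tendsto (fun n => (P n).real {ω | OriginEventually 2 fun x => ξ n x ω}) atTop (𝓝 1)) :=
  ⟨fun hp0 h => Pool.Agent.T5h70.TT.Seq.partA Pool.Agent.T5h70.TT.all_TRA Ω P ξ p q
      (fun n => (hξ n).measurable) (fun n => (hξ n).independent) (fun n => (hξ n).one)
      (fun n => (hξ n).two) hp hp0 h,
    fun hq0 h => Pool.Agent.T5h70.TT.Seq.partB Pool.Agent.T5h70.TT.all_TRA Ω P ξ p q
      (fun n => (hξ n).measurable) (fun n => (hξ n).independent) (fun n => (hξ n).one)
      (fun n => (hξ n).two) hq hq0 h⟩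

end Pool.Agent.Results.MP_daac75_pr.LogarithmicFactors
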